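import Pool.Graph.R_pool_sql_team_seeded_c8625f6e.K4H28.SP.Nine

set_option autoImplicit false
set_option linter.unusedSectionVars false

/-!
# Reduced classes with `∑ m i ≤ 3 d`
-/

namespace Pool.Agent.H51.SB

open MvPolynomial Module Pool.Agent.W609 Pool.Agent.W609.CR Pool.Agent.TH167.SH
  Pool.Agent.H248R5 Pool.Agent.H248R6 Pool.Agent.TH167.TT

/-- Reduced classes with `∑ w j ≤ 3 d`, at points of the cuspidal cubic. -/
theorem harb_cusp {r : ℕ} : ∀ (d : ℕ) (w : Fin (r + 4) → ℕ), Reduced d w →
    ∑ j, w j ≤ 3 * d →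
    Module.finrank ℚ ↥(VS (fun j : Fin (r + 4) => aff (cpt ((j.1 + 1 : ℕ) : ℚ))) w d) +
      ∑ j, (w j + 1).choose 2 ≤ (d + 2).choose 2 := by
  classical
  intro d
  induction d using Nat.strong_induction_on with
  | _ d ih =>
    intro w hred hsum
    have hsupp : ∑ j, w j = ∑ j ∈ Finset.univ.filter (fun j => w j ≠ 0), w j := by
      rw [Finset.sum_filter]
      refine Finset.sum_congr rfl fun j _ => ?_
      split_ifs with h
      · rfl
      · omega
    have hinj : Function.Injective fun j : Fin (r + 4) => ((j.1 + 1 : ℕ) : ℚ) := by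
      intro i j hij
      have h1 : ((i.1 + 1 : ℕ) : ℚ) = ((j.1 + 1 : ℕ) : ℚ) := hij
      have h2 : i.1 + 1 = j.1 + 1 := by exact_mod_cast h1
      exact Fin.ext (by omega)
    rcases Nat.lt_or_ge (Finset.univ.filter fun j => w j ≠ 0).card 3 with h3 | h3
    · refine sum_le_dim (P := fun j : Fin (r + 4) => cpt ((j.1 + 1 : ℕ) : ℚ)) ?_ w ?_
      · intro i j hij
        have h1 := congrFun hij 0
        simp only [cpt, Matrix.cons_val_zero] at h1
        exact hinj h1
      · rw [hsupp]
        exact red_three hred (by omega)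
    · obtain ⟨hd, hred'⟩ := red_sub hred h3
      have hpos : 0 < ∑ j, w j := by
        by_contra hcon
        have h1 : ∑ j, w j = 0 := by omega
        rw [Finset.sum_eq_zero_iff] at h1
        have h2 : (Finset.univ.filter fun j => w j ≠ 0) = ∅ := by
          rw [Finset.filter_eq_empty_iff]
          intro j hj
          rw [not_not]
          exact h1 j hj
        rw [h2] at h3
        simp at h3
      have h4 := cusp_step hinj (w := w) (d := d) (by omega) hsum (by
        intro _
        have h5 : (0 : ℚ) < ∑ j, (w j : ℚ) * ((j.1 + 1 : ℕ) : ℚ) := by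
          have h6 : ((∑ j, w j : ℕ) : ℚ) ≤ ∑ j, (w j : ℚ) * ((j.1 + 1 : ℕ) : ℚ) := by
            push_cast
            refine Finset.sum_le_sum fun j _ => ?_
            have h7 : (0 : ℚ) ≤ (w j : ℚ) * (j.1 : ℚ) := by positivity
            nlinarith
          have h7 : (0 : ℚ) < ((∑ j, w j : ℕ) : ℚ) := by exact_mod_cast hpos
          linarith
        exact h5.ne')
      -- the sum of the new multiplicities
      have hcard : ∑ j, (w j - 1) + (Finset.univ.filter fun j => w j ≠ 0).card = ∑ j, w j := by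
        rw [Finset.card_filter, ← Finset.sum_add_distrib]
        refine Finset.sum_congr rfl fun j _ => ?_
        split_ifs with h
        · omega
        · omega
      have hsum' : ∑ j, (w j - 1) ≤ 3 * (d - 3) := by
        rcases Nat.lt_or_ge 9 (Finset.univ.filter fun j => w j ≠ 0).card with h9 | h9
        · omega
        · have h10 : ∑ j, (w j - 1) = ∑ j ∈ Finset.univ.filter (fun j => w j ≠ 0), (w j - 1) := by
            rw [Finset.sum_filter]
            refine Finset.sum_congr rfl fun j _ => ?_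
            split_ifs with h
            · rfl
            · omega
          rw [h10]
          exact red_sum hred' 3 _ (by omega)
      have h5 := ih (d - 3) (by omega) (fun j => w j - 1) hred' hsum'
      have h6 : ∀ x : ℕ, (x + 1).choose 2 = (x - 1 + 1).choose 2 + x := by
        intro x
        rcases Nat.eq_zero_or_pos x with rfl | hx
        · rfl
        · rw [Nat.sub_add_cancel hx]
          have h7 : (x + 1).choose 2 = x.choose 1 + x.choose 2 := Nat.choose_succ_succ' x 1
          rw [Nat.choose_one_right] at h7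
          omega
      have h7 : ∑ j, (w j + 1).choose 2 = ∑ j, (w j - 1 + 1).choose 2 + ∑ j, w j := by
        rw [← Finset.sum_add_distrib]
        exact Finset.sum_congr rfl fun j _ => h6 (w j)
      have h8 : (d + 2).choose 2 = (d - 3 + 2).choose 2 + 3 * d := by
        obtain ⟨d', rfl⟩ : ∃ d', d = d' + 3 := ⟨d - 3, by omega⟩
        have a1 : (d' + 5).choose 2 = (d' + 4).choose 1 + (d' + 4).choose 2 :=
          Nat.choose_succ_succ' (d' + 4) 1
        have a2 : (d' + 4).choose 2 = (d' + 3).choose 1 + (d' + 3).choose 2 :=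
          Nat.choose_succ_succ' (d' + 3) 1
        have a3 : (d' + 3).choose 2 = (d' + 2).choose 1 + (d' + 2).choose 2 :=
          Nat.choose_succ_succ' (d' + 2) 1
        rw [Nat.choose_one_right] at a1 a2 a3
        have e1 : d' + 3 + 2 = d' + 5 := by omega
        have e2 : d' + 3 - 3 + 2 = d' + 2 := by omega
        rw [e1, e2]
        omega
      beta_reduce at h4 h5
      omega

/-- Reduced classes with `∑ w j ≤ 3 d`, at generic points. -/
theorem harb {K : Type} [Field K] [CharZero K] {r : ℕ} {P : Fin (r + 4) → Fin 2 → K}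
    (hP : AlgebraicIndependent ℚ (fun ij : Fin (r + 4) × Fin 2 => P ij.1 ij.2)) {d : ℕ}
    {w : Fin (r + 4) → ℕ} (hred : Reduced d w) (hs : ∑ j, w j ≤ 3 * d) :
    Module.finrank K ↥(VS (fun j => aff (P j)) w d) + ∑ j, (w j + 1).choose 2 =
      (d + 2).choose 2 := by
  have h1 := semi hP (fun j : Fin (r + 4) => cpt ((j.1 + 1 : ℕ) : ℚ)) w d
  have h2 := harb_cusp d w hred hs
  have h3 := chi_le_dim P d w
  rw [chi_cast] at h3
  omega

open Pool.Agent.K4H28.SP in
theorem sum_ext0_id {s : ℕ} {m : Fin s → ℕ} : ∑ i, ext0 m i = ∑ i, m i := by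
  rw [Fin.sum_univ_succ]
  have h2 : ext0 m 0 = 0 := rfl
  rw [h2, zero_add]
  rfl

open Pool.Agent.K4H28.SP in
/-- Reduced classes with `∑ m i ≤ 3 d`. -/
theorem gd_harb {s : ℕ} {m : Fin s → ℕ} {d : ℕ} (h : Red3 d m) (h9 : ∑ i, m i ≤ 3 * d) :
    gd m d + ∑ i, (m i + 1).choose 2 = (d + 2).choose 2 := by
  have h1 : Red3 d (ext0 (ext0 (ext0 (ext0 m)))) := h.ext0.ext0.ext0.ext0
  have h2 := harb (r := s) (K := PtF (s + 4)) (P := gpt (s + 4)) (gpt_ind (s + 4)) (d := d)
    (w := (ext0 (ext0 (ext0 (ext0 m))) : Fin (s + 4) → ℕ)) h1.2.2 (by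
      have h3 := (sum_ext0_id (m := ext0 (ext0 (ext0 m)))).trans
        ((sum_ext0_id (m := ext0 (ext0 m))).trans
          ((sum_ext0_id (m := ext0 m)).trans (sum_ext0_id (m := m))))
      rw [← h3] at h9
      exact h9)
  rw [W609.CR.vs_eq_forms, finrank_gen (gpt_ind (s + 4))] at h2
  have h4 : ∑ j, ((ext0 (ext0 (ext0 (ext0 m))) : Fin (s + 4) → ℕ) j + 1).choose 2 =
      ∑ i, (m i + 1).choose 2 := by
    exact (sum_ext0 (m := ext0 (ext0 (ext0 m)))).trans
      ((sum_ext0 (m := ext0 (ext0 m))).trans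
        ((sum_ext0 (m := ext0 m)).trans (sum_ext0 (m := m))))
  have h5 : gd (ext0 (ext0 (ext0 (ext0 m))) : Fin (s + 4) → ℕ) d = gd m d := by
    exact (gd_ext0' (m := ext0 (ext0 (ext0 m))) (d := d)).trans
      ((gd_ext0' (m := ext0 (ext0 m)) (d := d)).trans
        ((gd_ext0' (m := ext0 m) (d := d)).trans (gd_ext0' (m := m) (d := d))))
  rw [h4, h5] at h2
  exact h2

end Pool.Agent.H51.SB
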