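import Pool.Graph.R_pool_sql_team_seeded_c8625f6e.K4H51.PTM.Min
import Pool.Graph.R_seed8.TH167.TT.Move
import Pool.Agent.H51.SB.Harb

set_option autoImplicit false
set_option linter.unusedSectionVars false

/-!
# Subtracting an effective class supported on a set of points with independent conditions
-/

namespace Pool.Agent.H51.SB

open MvPolynomial Module Pool.Agent.W609 Pool.Agent.W609.CR Pool.Agent.TH167 Pool.Agent.TH167.SH
  Pool.Agent.H248R5 Pool.Agent.H248R6 Pool.Agent.TH167.TT Pool.Agent.K4H28.SP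

/-- A new point lowers the dimension. -/
theorem gd_lt_update {s d : ℕ} {n : Fin s → ℕ} {j : Fin s} (hj : n j = 0) (h : 1 ≤ gd n d) :
    gd (Function.update n j 1) d < gd n d := by
  classical
  rcases Nat.eq_zero_or_pos (gd (Function.update n j 1) d) with h0 | h0
  · omega
  · have h1 := K4H51.PTM.h1_le_update (d := d) (Function.update n j 1) j h0
    have e1 : Function.update (Function.update n j 1) j 0 = n := by
      rw [Function.update_idem, ← hj, Function.update_eq_self]
    rw [e1, Function.update_self] at h1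
    have h2 := K4H51.PTM.chi_update (d := d) (Function.update n j 1) j
    rw [e1, Function.update_self] at h2
    unfold K4H51.PTM.h1 at h1
    have c1 : (1 : ℕ).choose 2 = 0 := rfl
    have c2 : (1 + 1).choose 2 = 1 := rfl
    rw [c1] at h1
    rw [c2] at h2
    push_cast at *
    omega

/-- A member of the system which does not pass through the other points. -/
theorem exists_off {K : Type} [Field K] [CharZero K] {s : ℕ} {P : Fin s → Fin 2 → K}
    (hP : AlgebraicIndependent ℚ (fun ij : Fin s × Fin 2 => P ij.1 ij.2)) {S : Finset (Fin s)}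
    {n : Fin s → ℕ} (hn : ∀ j, j ∉ S → n j = 0) {x : ℕ} (hN : 1 ≤ gd n x) :
    ∃ g ∈ VS (fun j => aff (P j)) n x, g ≠ 0 ∧ ∀ j, j ∉ S → ¬ Van (aff (P j)) 1 g := by
  classical
  have hfin := vs_fin (fun j => aff (P j)) n x
  have hdim : finrank K ↥(VS (fun j => aff (P j)) n x) = gd n x :=
    K4H51.PTM.vs_gd hP n x
  let W : {j : Fin s // j ∉ S} → Subspace K ↥(VS (fun j => aff (P j)) n x) := fun j =>
    (VS (fun j => aff (P j)) (Function.update n j.1 1) x).comap
      (VS (fun j => aff (P j)) n x).subtype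
  have hW : ∀ j, W j ≠ ⊤ := by
    intro j htop
    have h1 := gd_lt_update (d := x) (hn j.1 j.2) hN
    have h2 : VS (fun j => aff (P j)) n x ≤ VS (fun j => aff (P j)) (Function.update n j.1 1) x := by
      intro f hf
      have h3 : (⟨f, hf⟩ : ↥(VS (fun j => aff (P j)) n x)) ∈ W j := by
        rw [htop]
        exact Submodule.mem_top
      exact h3
    have hfin2 := vs_fin (fun j => aff (P j)) (Function.update n j.1 1) x
    have h4 := Submodule.finrank_mono h2
    rw [hdim, K4H51.PTM.vs_gd hP] at h4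
    omega
  have hbot : (⊥ : Subspace K ↥(VS (fun j => aff (P j)) n x)) ≠ ⊤ := by
    intro h
    have h1 : finrank K ↥(VS (fun j => aff (P j)) n x) = 0 := by
      rw [← finrank_top K ↥(VS (fun j => aff (P j)) n x), ← h, finrank_bot]
    omega
  have hcov : ∃ g : ↥(VS (fun j => aff (P j)) n x), g ≠ 0 ∧ ∀ j, g ∉ W j := by
    by_contra hcon
    push Not at hcon
    have h1 : ⋃ o : Option {j : Fin s // j ∉ S},
        ((o.elim ⊥ W : Subspace K ↥(VS (fun j => aff (P j)) n x)) :
          Set ↥(VS (fun j => aff (P j)) n x)) = Set.univ := by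
      rw [Set.eq_univ_iff_forall]
      intro g
      rw [Set.mem_iUnion]
      by_cases hg : g = 0
      · exact ⟨none, by rw [hg]; exact Submodule.zero_mem _⟩
      · obtain ⟨j, hj⟩ := hcon g hg
        exact ⟨some j, hj⟩
    obtain ⟨o, ho⟩ := Subspace.exists_eq_top_of_iUnion_eq_univ h1
    cases o with
    | none => exact hbot ho
    | some j => exact hW j ho
  obtain ⟨⟨g, hg⟩, hg0, hgW⟩ := hcov
  refine ⟨g, hg, fun h => hg0 (Subtype.ext h), fun j hj hvan => ?_⟩
  refine hgW ⟨j, hj⟩ ?_
  change g ∈ VS (fun j => aff (P j)) (Function.update n j 1) x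
  rw [mem_VS] at hg ⊢
  refine ⟨hg.1, fun i => ?_⟩
  by_cases hi : i = j
  · subst hi
    rw [Function.update_self]
    exact hvan
  · rw [Function.update_of_ne hi]
    exact hg.2 i

/-- Lowering one multiplicity. -/
theorem h1_update_mono {s d : ℕ} (m : Fin s → ℕ) (i₀ : Fin s) {a : ℕ} (ha : a ≤ m i₀) :
    K4H51.PTM.h1 d (Function.update m i₀ a) ≤ K4H51.PTM.h1 d m := by
  classical
  have e1 : insert i₀.succ (sucs (Finset.univ \ {i₀})) = sucs (Finset.univ : Finset (Fin s)) := by
    have h1 : (Finset.univ : Finset (Fin s)) = insert i₀ (Finset.univ \ {i₀}) := by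
      rw [← Finset.erase_eq, Finset.insert_erase (Finset.mem_univ i₀)]
    conv_rhs => rw [h1]
    unfold sucs
    rw [Finset.map_insert]
    rfl
  have hP := gpt_ind (s + 1)
  have hq : (0 : Fin (s + 1)) ∉ sucs (Finset.univ \ {i₀}) := zero_sucs _
  have hi : i₀.succ ∉ sucs (Finset.univ \ {i₀}) := fun h =>
    (Finset.mem_sdiff.1 (succ_sucs.1 h)).2 (Finset.mem_singleton_self _)
  have hiq := Fin.succ_ne_zero i₀
  have e3 := sum_insert_eq (m := ext0 m) (d := d) hP hq hi hiq
  have e4 := sum_insert_eq (m := ext0 (Function.update m i₀ a)) (d := d) hP hq hi hiq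
  have e5 : ext0 m i₀.succ = m i₀ := rfl
  have e6 : ext0 (Function.update m i₀ a) i₀.succ = a := Function.update_self _ _ _
  have e7 : K4H28.SP.res (ext0 (Function.update m i₀ a)) (sucs (Finset.univ \ {i₀})) =
      K4H28.SP.res (ext0 m) (sucs (Finset.univ \ {i₀})) := by
    rw [res_sucs, res_sucs]
    congr 1
    rw [res_sdiff_singleton, res_sdiff_singleton, Function.update_idem]
  have e8 : Function.update (Function.update m i₀ a) i₀ 0 = Function.update m i₀ 0 :=
    Function.update_idem _ _ _
  rw [e1, gd_res, gd_res, res_univ, res_sdiff_singleton, e5] at e3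
  rw [e1, e7, gd_res, gd_res, res_univ, res_sdiff_singleton, e6] at e4
  have hsum : ∑ k ∈ Finset.range a, finrank (PtF (s + 1)) (II (gpt (s + 1)) d 0
      (K4H28.SP.res (ext0 m) (sucs (Finset.univ \ {i₀}))) k) ≤
      ∑ k ∈ Finset.range (m i₀), finrank (PtF (s + 1)) (II (gpt (s + 1)) d 0
      (K4H28.SP.res (ext0 m) (sucs (Finset.univ \ {i₀}))) k) :=
    Finset.sum_le_sum_of_subset (Finset.range_mono ha)
  have c1 := K4H51.PTM.chi_update (d := d) m i₀
  have c2 := K4H51.PTM.chi_update (d := d) (Function.update m i₀ a) i₀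
  rw [e8, Function.update_self] at c2
  unfold K4H51.PTM.h1
  omega

/-- The superabundance is monotone in the multiplicities. -/
theorem h1_mono {s d : ℕ} {w m : Fin s → ℕ} (h : ∀ i, w i ≤ m i) :
    K4H51.PTM.h1 d w ≤ K4H51.PTM.h1 d m := by
  classical
  have key : ∀ S : Finset (Fin s),
      K4H51.PTM.h1 d (fun i => if i ∈ S then w i else m i) ≤ K4H51.PTM.h1 d m := by
    intro S
    induction S using Finset.induction_on with
    | empty =>
      refine le_of_eq ?_
      congr 1
    | insert a S ha ih =>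
      refine le_trans (le_of_eq ?_) ((h1_update_mono (d := d)
        (fun i => if i ∈ S then w i else m i) a (a := w a) ?_).trans ih)
      · congr 1
        funext i
        by_cases hi : i = a
        · subst hi
          rw [Function.update_self, if_pos (Finset.mem_insert_self _ _)]
        · rw [Function.update_of_ne hi]
          by_cases h2 : i ∈ S
          · rw [if_pos h2, if_pos (Finset.mem_insert_of_mem h2)]
          · rw [if_neg h2, if_neg]
            intro h3
            rcases Finset.mem_insert.1 h3 with h4 | h4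
            · exact hi h4
            · exact h2 h4
      · rw [if_neg ha]
        exact h a
  have h1 := key Finset.univ
  have e : (fun i => if i ∈ (Finset.univ : Finset (Fin s)) then w i else m i) = w := by
    funext i
    exact if_pos (Finset.mem_univ i)
  rwa [e] at h1

/-- Products with a form of given orders. -/
theorem map_mul_le {K : Type} [Field K] {s : ℕ} {P : Fin s → Fin 2 → K} {d x : ℕ} (hx : x ≤ d)
    {w n : Fin s → ℕ} {g : MvPolynomial (Fin 3) K} (hg : g.IsHomogeneous x)
    (hord : ∀ j, Ord (aff (P j)) (n j) g) :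
    (VS (fun j => aff (P j)) (fun j => w j - n j) (d - x)).map (LinearMap.mulLeft K g) ≤
      VS (fun j => aff (P j)) w d := by
  rintro _ ⟨f, hf, rfl⟩
  have hf' := (mem_VS _ _ _ _).1 hf
  rw [mem_VS]
  refine ⟨?_, fun j => ?_⟩
  · have h1 := hg.mul hf'.1
    rw [Nat.add_sub_cancel' hx] at h1
    exact h1
  · have h1 := van_mul (hord j).1 (hf'.2 j)
    exact van_mono (by omega) h1

theorem finrank_map_mul {K : Type} [Field K] {V : Submodule K (MvPolynomial (Fin 3) K)}
    {g : MvPolynomial (Fin 3) K} (hg : g ≠ 0) :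
    finrank K ↥(V.map (LinearMap.mulLeft K g)) = finrank K ↥V :=
  (LinearEquiv.finrank_eq (Submodule.equivMapOfInjective _
    (fun _ _ hab => mul_left_cancel₀ hg hab) V)).symm

/-- **The comparison.** Let the points of `S` impose independent conditions with the multiplicities
`m`, and let `(x; n)` be a nonempty class supported on `S`. -/
theorem h1_sub {s d x : ℕ} {m n : Fin s → ℕ} {S : Finset (Fin s)} (hn : ∀ j, j ∉ S → n j = 0)
    (hN : 1 ≤ gd n x) (hx : x ≤ d) (hS : K4H51.PTM.h1 d (K4H28.SP.res m S) = 0) :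
    K4H51.PTM.h1 d m ≤ K4H51.PTM.h1 (d - x) (fun j => m j - n j) := by
  classical
  have hP := gpt_ind s
  obtain ⟨g, hg, hg0, hoff⟩ := exists_off hP hn hN
  have hg' := (mem_VS _ _ _ _).1 hg
  have hexo : ∀ j, ∃ a, Ord (aff (gpt s j)) a g := fun j => exists_ord hg0 hg'.1
  choose n' hord using hexo
  have hle : ∀ j, n j ≤ n' j := by
    intro j
    by_contra hcon
    exact (hord j).2 (van_mono (by omega) (hg'.2 j))
  have hoff' : ∀ j, j ∉ S → n' j = 0 := by
    intro j hj
    by_contra hcon
    exact hoff j hj (van_mono (by omega) (hord j).1)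
  let B := VS (fun j => aff (gpt s j)) m d
  let A := VS (fun j => aff (gpt s j)) (K4H28.SP.res m S) d
  let GB := (VS (fun j => aff (gpt s j)) (fun j => m j - n' j) (d - x)).map
    (LinearMap.mulLeft (PtF s) g)
  let GA := (VS (fun j => aff (gpt s j)) (fun j => K4H28.SP.res m S j - n' j) (d - x)).map
    (LinearMap.mulLeft (PtF s) g)
  have hres : ∀ j, K4H28.SP.res m S j ≤ m j := by
    intro j
    unfold K4H28.SP.res
    split_ifs
    · exact le_rfl
    · exact Nat.zero_le _
  have hBA : B ≤ A := vs_le hres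
  have hGA : GA ≤ A := map_mul_le hx hg'.1 hord
  have hGB : B ⊓ GA ≤ GB := by
    rintro f ⟨hfB, h, hh, rfl⟩
    refine ⟨h, ?_, rfl⟩
    have hfB' := ((mem_VS _ _ _ _).1 hfB).2
    have hh' := (mem_VS _ _ _ _).1 hh
    refine (mem_VS _ _ _ _).2 ⟨hh'.1, fun j => ?_⟩
    rcases Nat.lt_or_ge (m j) (n' j) with h1 | h1
    · rw [Nat.sub_eq_zero_of_le h1.le]
      exact van_zero _ _
    · refine van_of_mul (hord j) ?_
      rw [Nat.add_sub_cancel' h1]
      exact hfB' j
  have hfA : Module.Finite (PtF s) ↥A := vs_fin _ _ _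
  have hfB : Module.Finite (PtF s) ↥B := vs_fin _ _ _
  have hfGA : Module.Finite (PtF s) ↥GA := Submodule.finiteDimensional_of_le hGA
  have hfGB' : Module.Finite (PtF s)
    ↥(VS (fun j => aff (gpt s j)) (fun j => m j - n' j) (d - x)) := vs_fin _ _ _
  have hfGB : Module.Finite (PtF s) ↥GB := inferInstance
  have k1 := Submodule.finrank_sup_add_finrank_inf_eq B GA
  have k2 : finrank (PtF s) ↥(B ⊔ GA) ≤ finrank (PtF s) ↥A :=
    Submodule.finrank_mono (sup_le hBA hGA)
  have k3 : finrank (PtF s) ↥(B ⊓ GA) ≤ finrank (PtF s) ↥GB := Submodule.finrank_mono hGB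
  have k4 : finrank (PtF s) ↥GB = gd (fun j => m j - n' j) (d - x) :=
    (finrank_map_mul hg0).trans (K4H51.PTM.vs_gd hP _ _)
  have k5 : finrank (PtF s) ↥GA = gd (fun j => K4H28.SP.res m S j - n' j) (d - x) :=
    (finrank_map_mul hg0).trans (K4H51.PTM.vs_gd hP _ _)
  have k6 : finrank (PtF s) ↥B = gd m d := K4H51.PTM.vs_gd hP _ _
  have k7 : finrank (PtF s) ↥A = gd (K4H28.SP.res m S) d := K4H51.PTM.vs_gd hP _ _
  have k8 := K4H51.PTM.h1_nonneg (d := d - x) (fun j => K4H28.SP.res m S j - n' j)
  have k9 : K4H51.PTM.h1 d m ≤ K4H51.PTM.h1 (d - x) (fun j => m j - n' j) := by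
    have hsum : ∑ j, (m j + 1).choose 2 + ∑ j, (K4H28.SP.res m S j - n' j + 1).choose 2 =
        ∑ j, (K4H28.SP.res m S j + 1).choose 2 + ∑ j, (m j - n' j + 1).choose 2 := by
      rw [← Finset.sum_add_distrib, ← Finset.sum_add_distrib]
      refine Finset.sum_congr rfl fun j _ => ?_
      by_cases hj : j ∈ S
      · unfold K4H28.SP.res
        rw [if_pos hj]
      · rw [hoff' j hj]
        unfold K4H28.SP.res
        rw [if_neg hj]
        simp only [Nat.sub_zero]
        omega
    unfold K4H51.PTM.h1 at hS k8 ⊢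
    rw [chi_cast] at hS k8 ⊢
    rw [chi_cast]
    omega
  exact k9.trans (h1_mono fun j => Nat.sub_le_sub_left (hle j) _)

end Pool.Agent.H51.SB
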