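import Pool.Agent.H51.SB.Trade
import Pool.Agent.H51.SB.Harb

set_option autoImplicit false
set_option linter.unusedSectionVars false

/-!
# The bounds for the generic dimension
-/

namespace Pool.Agent.H51.SB

open MvPolynomial Module Pool.Agent.H248R5 Pool.Agent.H248R6 Pool.Agent.K4H28.SP

variable {s : ℕ} {m : Fin s → ℕ} {d : ℕ}

theorem gd_trade {T : Finset (Fin s)} {A b : ℕ} (hA : ∀ j ∈ T, m j ≤ A)
    (hb : ∀ j, j ∉ T → m j ≤ b) (hba : b ≤ A)
    (base : gd (res m T) d + ∑ i ∈ T, (m i + 1).choose 2 = (d + 2).choose 2)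
    (hne : 1 ≤ gd m d) :
    ∃ y, gd m d + ∑ i, (m i + 1).choose 2 = (d + 2).choose 2 + y ∧ TB A b (gd m d) y := by
  classical
  have h1 := trade_gen (m := ext0 m) (d := d) (q := 0) (T := sucs T) (A := A) (b := b)
    (gpt_ind (s + 1)) (zero_sucs T) (fun j => by
      refine Fin.cases (fun _ => Nat.zero_le _) (fun j hj => ?_) j
      exact hA j (succ_sucs.1 hj)) (fun j => by
      refine Fin.cases (fun _ => Nat.zero_le _) (fun j hj => ?_) j
      exact hb j (fun h => hj (succ_sucs.2 h))) hba (by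
        rw [gd_res, sum_sucs]
        exact base) (sucs (Finset.univ \ T)) (by
        rw [Finset.disjoint_left]
        intro x hx hx'
        unfold sucs at hx hx'
        rw [Finset.mem_map] at hx hx'
        obtain ⟨i, hi, rfl⟩ := hx
        obtain ⟨j, hj, h⟩ := hx'
        have : j = i := Fin.succ_injective _ h
        subst this
        exact (Finset.mem_sdiff.1 hi).2 hj) (zero_sucs _)
  rw [sucs_union, Finset.sdiff_union_of_subset (Finset.subset_univ T), gd_res, sum_sucs,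
    res_univ] at h1
  exact h1 hne

/-- One point. -/
theorem gd_trade_one {i₀ : Fin s} {b : ℕ} (hb : ∀ j, j ≠ i₀ → m j ≤ b) (hba : b ≤ m i₀)
    (hne : 1 ≤ gd m d) :
    ∃ y, gd m d + ∑ i, (m i + 1).choose 2 = (d + 2).choose 2 + y ∧ TB (m i₀) b (gd m d) y := by
  classical
  refine gd_trade (T := {i₀}) (A := m i₀) (fun j hj => by rw [Finset.mem_singleton.1 hj])
    (fun j hj => hb j (fun h => hj (Finset.mem_singleton.2 h))) hba ?_ hne
  rw [Finset.sum_singleton]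
  rcases gd_one (m := m) (d := d) i₀ with h | h
  · exact h
  · exfalso
    have h1 : gd m d ≤ gd (res m {i₀}) d := by
      rw [← gd_res, ← gd_ext0]
      refine Submodule.finrank_mono (forms_le fun i => ?_)
      unfold res
      split_ifs
      · exact le_rfl
      · exact Nat.zero_le _
    omega

/-- The range of Q1. -/
theorem gd_trade_red (h : Red3 d m) {T : Finset (Fin s)} (hT : ∑ i ∈ T, m i ≤ 3 * d) {A b : ℕ}
    (hA : ∀ j ∈ T, m j ≤ A) (hb : ∀ j, j ∉ T → m j ≤ b) (hba : b ≤ A) (hne : 1 ≤ gd m d) :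
    ∃ y, gd m d + ∑ i, (m i + 1).choose 2 = (d + 2).choose 2 + y ∧ TB A b (gd m d) y := by
  classical
  refine gd_trade (T := T) hA hb hba ?_ hne
  have e : ∀ g : ℕ → ℕ, g 0 = 0 → ∑ i, g (K4H28.SP.res m T i) = ∑ i ∈ T, g (m i) := by
    intro g hg
    have h2 : ∑ i, g (K4H28.SP.res m T i) = ∑ i ∈ T, g (K4H28.SP.res m T i) := by
      symm
      refine Finset.sum_subset (Finset.subset_univ _) fun i _ hi => ?_
      rw [res_not hi, hg]
    rw [h2]
    refine Finset.sum_congr rfl fun i hi => ?_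
    unfold K4H28.SP.res
    rw [if_pos hi]
  have h1 := gd_harb (m := K4H28.SP.res m T) (d := d) (h.res T) (by
    rw [e (fun x => x) rfl]
    exact hT)
  rw [← h1, e (fun x => (x + 1).choose 2) rfl]

/-- **The closed form.** -/
theorem TB.closed {A b x y : ℕ} (h : TB A b x y) (hbA : b ≤ A) (hy : y ≠ 0) :
    (y : ℝ) ≤ ((b : ℝ) - 1) * ((A : ℝ) + b) * (1 + max 0 (Real.log (((b : ℝ) - 1) / 2))) := by
  rcases h with h | ⟨h0, h1, h2, h3⟩
  · exact absurd h hy
  obtain ⟨c, rfl⟩ : ∃ c, b = c + 1 := ⟨b - 1, by omega⟩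
  obtain ⟨B, rfl⟩ : ∃ B, A = B + 1 := ⟨A - 1, by omega⟩
  simp only [Nat.add_sub_cancel] at h1 h2 h3
  have hX : (0 : ℝ) < ((2 * (B + 1) + c : ℕ) : ℝ) := by
    have : 0 < 2 * (B + 1) + c := by omega
    exact_mod_cast this
  have h4 := pot_nonneg (β := (c : ℝ)) (Nat.cast_nonneg c) hX (x := (x : ℝ)) (Nat.cast_nonneg x)
  have h5 := pot_le (β := (c : ℝ)) (Nat.cast_nonneg c) hX (x := ((B * c : ℕ) : ℝ))
    (y := (c : ℝ) / 2) (Nat.cast_nonneg _) (by
      push_cast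
      have : (0 : ℝ) ≤ (c : ℝ) := Nat.cast_nonneg c
      nlinarith)
  have e1 : ((c + 1 : ℕ) : ℝ) - 1 = (c : ℝ) := by push_cast; ring
  rw [e1]
  set L := max 0 (Real.log ((c : ℝ) / 2)) with hL
  have hL0 : 0 ≤ L := le_max_left _ _
  have hc : (1 : ℝ) ≤ (c : ℝ) := by
    have : 1 ≤ c := by omega
    exact_mod_cast this
  have hB : (0 : ℝ) ≤ (B : ℝ) := Nat.cast_nonneg B
  push_cast at h3 h4 h5 ⊢
  have h6 : (y : ℝ) ≤ ((c : ℝ) + 1) * c / 2 + (c : ℝ) * (2 * ((B : ℝ) + 1) + c) / 2 * (1 + L) := by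
    linarith
  have h7 : ((c : ℝ) + 1) * c / 2 ≤ ((c : ℝ) + 1) * c / 2 * (1 + L) := by
    have : 0 ≤ ((c : ℝ) + 1) * c / 2 * L := by positivity
    linarith
  have h8 : ((c : ℝ) + 1) * c / 2 * (1 + L) + (c : ℝ) * (2 * ((B : ℝ) + 1) + c) / 2 * (1 + L) ≤
      (c : ℝ) * ((B : ℝ) + 1 + (c + 1)) * (1 + L) := by
    have e2 : (c : ℝ) * ((B : ℝ) + 1 + (c + 1)) * (1 + L) -
        (((c : ℝ) + 1) * c / 2 * (1 + L) + (c : ℝ) * (2 * ((B : ℝ) + 1) + c) / 2 * (1 + L)) =
        (c : ℝ) / 2 * (1 + L) := by ring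
    have : 0 ≤ (c : ℝ) / 2 * (1 + L) := by positivity
    linarith
  linarith

end Pool.Agent.H51.SB
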