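import Mathlib

set_option autoImplicit false

/-!
# The potential function

`pot β X x` is `β x / 2` for `x ≤ X`, and `β X (1 + log (x / X)) / 2` from there on.
-/

namespace Pool.Agent.H51.SB

/-- The potential. -/
noncomputable def pot (β X x : ℝ) : ℝ :=
  if x ≤ X then β * x / 2 else β * X / 2 * (1 + Real.log (x / X))

variable {β X : ℝ}

theorem one_sub_inv_le_log {y : ℝ} (hy : 0 < y) : 1 - 1 / y ≤ Real.log y := by
  have h := Real.one_sub_inv_le_log_of_pos hy
  rwa [one_div]

/-- **One step.** -/
theorem pot_step (hβ : 0 ≤ β) (hX : 0 < X) {h D T : ℝ} (hD : 0 ≤ D) (hDh : D ≤ h)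
    (h1 : 2 * T ≤ β * D) (h2 : 2 * T * h ≤ β * D * X) :
    T + pot β X (h - D) ≤ pot β X h := by
  unfold pot
  by_cases hh : h ≤ X
  · rw [if_pos hh, if_pos (by linarith)]
    linarith
  · push Not at hh
    have hh0 : 0 < h := hX.trans hh
    rw [if_neg (not_le.2 hh)]
    have hT : T ≤ β * D * X / (2 * h) := by
      rw [le_div_iff₀ (by linarith)]
      linarith
    by_cases hd : h - D ≤ X
    · rw [if_pos hd]
      have h3 : 1 - X / h ≤ Real.log (h / X) := by
        have := one_sub_inv_le_log (y := h / X) (div_pos hh0 hX)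
        rwa [one_div_div] at this
      have h4 : β * X / 2 * (1 + (1 - X / h)) ≤ β * X / 2 * (1 + Real.log (h / X)) :=
        mul_le_mul_of_nonneg_left (by linarith) (by positivity)
      have h5 : β * D * X / (2 * h) + β * (h - D) / 2 ≤ β * X / 2 * (1 + (1 - X / h)) := by
        have h6 : β * X / 2 * (1 + (1 - X / h)) - (β * D * X / (2 * h) + β * (h - D) / 2) =
            β * ((h - X) * (D - (h - X))) / (2 * h) := by
          field_simp
          ring
        have h7 : 0 ≤ β * ((h - X) * (D - (h - X))) / (2 * h) := by
          apply div_nonneg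
          · exact mul_nonneg hβ (mul_nonneg (by linarith) (by linarith))
          · linarith
        linarith
      linarith
    · push Not at hd
      rw [if_neg (not_le.2 hd)]
      have hd0 : 0 < h - D := hX.trans hd
      have h3 : Real.log (h / X) = Real.log (h / (h - D)) + Real.log ((h - D) / X) := by
        rw [← Real.log_mul (by positivity) (by positivity)]
        congr 1
        field_simp
      have h4 : 1 - (h - D) / h ≤ Real.log (h / (h - D)) := by
        have := one_sub_inv_le_log (y := h / (h - D)) (div_pos hh0 hd0)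
        rwa [one_div_div] at this
      have h5 : β * X / 2 * (1 - (h - D) / h) = β * D * X / (2 * h) := by
        field_simp
        ring
      have h6 : β * X / 2 * (1 - (h - D) / h) ≤ β * X / 2 * Real.log (h / (h - D)) :=
        mul_le_mul_of_nonneg_left h4 (by positivity)
      rw [h3]
      have h7 : β * X / 2 * (1 + (Real.log (h / (h - D)) + Real.log ((h - D) / X))) =
          β * X / 2 * (1 + Real.log ((h - D) / X)) + β * X / 2 * Real.log (h / (h - D)) := by
        ring
      rw [h7]
      linarith

/-- The potential is monotone. -/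
theorem pot_mono (hβ : 0 ≤ β) (hX : 0 < X) {x y : ℝ} (hx : 0 ≤ x) (hxy : x ≤ y) :
    pot β X x ≤ pot β X y := by
  have h := pot_step hβ hX (h := y) (D := y - x) (T := 0) (by linarith) (by linarith)
    (by
      have := mul_nonneg hβ (sub_nonneg.2 hxy)
      linarith)
    (by
      have := mul_nonneg (mul_nonneg hβ (sub_nonneg.2 hxy)) hX.le
      linarith)
  have e : y - (y - x) = x := by ring
  rw [e] at h
  linarith

theorem pot_nonneg (hβ : 0 ≤ β) (hX : 0 < X) {x : ℝ} (hx : 0 ≤ x) : 0 ≤ pot β X x := by
  unfold pot
  split_ifs with h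
  · positivity
  · push Not at h
    have h1 : 1 ≤ x / X := by
      rw [le_div_iff₀ hX]
      linarith
    have h2 := Real.log_nonneg h1
    positivity

/-- The closed form. -/
theorem pot_le (hβ : 0 ≤ β) (hX : 0 < X) {x y : ℝ} (hx : 0 ≤ x) (hxy : x ≤ X * y) :
    pot β X x ≤ β * X / 2 * (1 + max 0 (Real.log y)) := by
  unfold pot
  split_ifs with h
  · have h1 : β * x / 2 ≤ β * X / 2 := by
      have := mul_le_mul_of_nonneg_left h hβ
      linarith
    have h2 : β * X / 2 * 1 ≤ β * X / 2 * (1 + max 0 (Real.log y)) :=
      mul_le_mul_of_nonneg_left (by linarith [le_max_left 0 (Real.log y)]) (by positivity)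
    linarith
  · push Not at h
    have h0 : 0 < x := hX.trans h
    refine mul_le_mul_of_nonneg_left ?_ (by positivity)
    have h1 : x / X ≤ y := by
      rw [div_le_iff₀ hX]
      linarith
    have h2 := Real.log_le_log (div_pos h0 hX) h1
    linarith [le_max_right 0 (Real.log y)]

end Pool.Agent.H51.SB
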