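import Pool.Graph.R_pool_sql_team_seeded_c8625f6e.K4H51.PTM.Main
import Pool.Agent.H51.SB.Gd

set_option autoImplicit false

/-!
# The bounds for the dimension and the superabundance: definitions
-/

namespace Pool.Agent.H51.SB.Win

/-- The `(n + 1)`-th largest multiplicity: the least `b` such that at most `n` of the multiplicities
are larger than `b`. -/
noncomputable def nth {s : ℕ} (n : ℕ) (w : Fin s → ℕ) : ℕ :=
  sInf {b : ℕ | (Finset.univ.filter fun i => b < w i).card ≤ n}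

/-- The function `Φ`: linear up to `2 A + b - 1`, logarithmic from there on. -/
noncomputable def potential (A b : ℕ) (x : ℝ) : ℝ :=
  if x ≤ 2 * A + (b - 1) then (b - 1) * x / 2
  else (b - 1) * (2 * A + (b - 1)) / 2 * (1 + Real.log (x / (2 * A + (b - 1))))

/-- The bound `(b - 1) (A + b) (1 + log⁺ ((b - 1) / 2))`. -/
noncomputable def bound (A b : ℕ) : ℝ :=
  ((b : ℝ) - 1) * (A + b) * (1 + max 0 (Real.log (((b : ℝ) - 1) / 2)))

/-- The bounds for `h⁰` and `h¹`. -/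
def Small (h0 : ℕ) (h1 : ℤ) (A b : ℕ) : Prop :=
  2 ≤ b ∧ h0 ≤ (A - 1) * (b - 1) ∧
    2 * h1 + ((b : ℤ) - 1) * h0 ≤ ((b : ℤ) - 1) * ((A : ℤ) * ((b : ℤ) - 1) + 1) ∧
    (h1 : ℝ) ≤ bound A b

/-- The bound which involves the logarithm of `h⁰`. -/
def Trade (h0 : ℕ) (h1 : ℤ) (A b : ℕ) : Prop :=
  (h1 : ℝ) + potential A b h0 ≤
    (b : ℝ) * (b - 1) / 2 + potential A b (((A : ℝ) - 1) * ((b : ℝ) - 1))

open Pool.Agent.K4H28.SP Pool.Agent.H51.SB

theorem pot_eq {A b : ℕ} (hb : 1 ≤ b) (x : ℝ) :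
    pot ((b - 1 : ℕ) : ℝ) ((2 * A + (b - 1) : ℕ) : ℝ) x = potential A b x := by
  unfold pot potential
  push_cast [Nat.cast_sub hb]
  rfl

/-- The bounds for natural numbers. -/
theorem of_TB {x y A b : ℕ} (h : TB A b x y) (hy : y ≠ 0) (hbA : b ≤ A) :
    Small x (y : ℤ) A b ∧ Trade x (y : ℤ) A b := by
  have hcl := h.closed hbA hy
  rcases h with h2 | ⟨h2, h3, h4, h5⟩
  · exact absurd h2 hy
  rw [pot_eq (by omega), pot_eq (by omega)] at h5
  obtain ⟨c, rfl⟩ : ∃ c, b = c + 1 := ⟨b - 1, by omega⟩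
  obtain ⟨B, rfl⟩ : ∃ B, A = B + 1 := ⟨A - 1, by omega⟩
  simp only [Nat.add_sub_cancel] at h3 h4 h5
  have e4 : ((c + 1 : ℕ) : ℤ) - 1 = (c : ℤ) := by push_cast; ring
  have e5 : ((B + 1 : ℕ) : ℝ) - 1 = (B : ℝ) := by push_cast; ring
  have e6 : ((c + 1 : ℕ) : ℝ) - 1 = (c : ℝ) := by push_cast; ring
  refine ⟨⟨h2, ?_, ?_, ?_⟩, ?_⟩
  · simp only [Nat.add_sub_cancel]
    exact h3
  · rw [e4]
    exact_mod_cast h4
  · rw [Int.cast_natCast]
    exact hcl
  · unfold Trade
    rw [e5, e6, Int.cast_natCast]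
    push_cast at h5 ⊢
    exact h5

theorem bound_mono {A A' b b' : ℕ} (hb : 1 ≤ b) (hA : A ≤ A') (hbb : b ≤ b') :
    bound A b ≤ bound A' b' := by
  unfold bound
  have h1 : (1 : ℝ) ≤ (b : ℝ) := by exact_mod_cast hb
  have h2 : (A : ℝ) ≤ (A' : ℝ) := by exact_mod_cast hA
  have h3 : (b : ℝ) ≤ (b' : ℝ) := by exact_mod_cast hbb
  have h0 : (0 : ℝ) ≤ (A : ℝ) := Nat.cast_nonneg A
  have h4 : max 0 (Real.log (((b : ℝ) - 1) / 2)) ≤ max 0 (Real.log (((b' : ℝ) - 1) / 2)) := by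
    rcases h1.lt_or_eq with h | h
    · refine max_le_max le_rfl (Real.log_le_log (by linarith) (by linarith))
    · rw [← h]
      have : ((1 : ℝ) - 1) / 2 = 0 := by norm_num
      rw [this, Real.log_zero, max_self]
      exact le_max_left _ _
  have h5 : (0 : ℝ) ≤ max 0 (Real.log (((b : ℝ) - 1) / 2)) := le_max_left _ _
  have h6 : ((b : ℝ) - 1) * (A + b) ≤ ((b' : ℝ) - 1) * (A' + b') :=
    mul_le_mul (by linarith) (by linarith) (by linarith) (by linarith)
  exact mul_le_mul h6 (by linarith) (by linarith)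
    (mul_nonneg (by linarith) (by linarith))

theorem Small.mono {h0 : ℕ} {h1 : ℤ} {A A' b b' : ℕ} (h : Small h0 h1 A b) (hA : A ≤ A')
    (hbb : b ≤ b') : Small h0 h1 A' b' := by
  obtain ⟨k0, k1, k2, k3⟩ := h
  refine ⟨by omega, k1.trans (Nat.mul_le_mul (by omega) (by omega)), ?_,
    k3.trans (bound_mono (by omega) hA hbb)⟩
  obtain ⟨c, rfl⟩ : ∃ c, b = c + 2 := ⟨b - 2, by omega⟩
  obtain ⟨r, rfl⟩ : ∃ r, b' = c + 2 + r := ⟨b' - (c + 2), by omega⟩
  obtain ⟨t, rfl⟩ : ∃ t, A' = A + t := ⟨A' - A, by omega⟩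
  have e1 : c + 2 - 1 = c + 1 := rfl
  rw [e1] at k1
  have k4 : (h0 : ℤ) ≤ (A : ℤ) * (c + 1) := by
    have : h0 ≤ A * (c + 1) := k1.trans (Nat.mul_le_mul_right _ (by omega))
    exact_mod_cast this
  push_cast at k2 ⊢
  have hc : (0 : ℤ) ≤ c := Int.natCast_nonneg c
  have hr : (0 : ℤ) ≤ r := Int.natCast_nonneg r
  have ht : (0 : ℤ) ≤ t := Int.natCast_nonneg t
  have hA0 : (0 : ℤ) ≤ A := Int.natCast_nonneg A
  have m1 : 0 ≤ (r : ℤ) * ((A : ℤ) * (c + 1) - h0) := mul_nonneg hr (by linarith)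
  have m2 : 0 ≤ (A : ℤ) * r * (c + 1 + r) := by positivity
  have m3 : 0 ≤ (t : ℤ) * (c + 1 + r) * (c + 1 + r) := by positivity
  nlinarith

theorem nth_mono {s : ℕ} (n : ℕ) {u w : Fin s → ℕ} (h : ∀ i, u i ≤ w i) : nth n u ≤ nth n w :=
  Pool.Agent.K4H51.PTM.nth_mono n h

/-- **The bounds for a standard class.** -/
theorem standard {s e : ℕ} (hs : 3 ≤ s) {u : Fin s → ℕ}
    (hred : Pool.Agent.TH167.SH.Reduced e u) (hpos : 1 ≤ gd u e)
    (hne : (gd u e : ℤ) ≠ Pool.Agent.TH167.SH.chi e u) :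
    (Small (gd u e) (gd u e - Pool.Agent.TH167.SH.chi e u) (nth 0 u) (nth 9 u) ∧
      Trade (gd u e) (gd u e - Pool.Agent.TH167.SH.chi e u) (nth 0 u) (nth 9 u)) ∧
    ∀ (T : Finset (Fin s)) (b : ℕ), ∑ i ∈ T, u i ≤ 3 * e → (∀ i, i ∉ T → u i ≤ b) →
      b ≤ nth 0 u → Small (gd u e) (gd u e - Pool.Agent.TH167.SH.chi e u) (nth 0 u) b ∧
        Trade (gd u e) (gd u e - Pool.Agent.TH167.SH.chi e u) (nth 0 u) b := by
  classical
  have key : ∀ (T : Finset (Fin s)) (b : ℕ), ∑ i ∈ T, u i ≤ 3 * e →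
      (∀ i, i ∉ T → u i ≤ b) → b ≤ nth 0 u →
        Small (gd u e) (gd u e - Pool.Agent.TH167.SH.chi e u) (nth 0 u) b ∧
          Trade (gd u e) (gd u e - Pool.Agent.TH167.SH.chi e u) (nth 0 u) b := by
    intro T b hT hb hbA
    obtain ⟨y, hy, hTB⟩ := gd_trade_red (m := u) (d := e)
      (Pool.Agent.K4H51.PTM.red3_of hs hred) hT (A := nth 0 u) (b := b)
      (fun j _ => Pool.Agent.K4H51.PTM.le_nth_zero u j) hb hbA hpos
    have h4 := Pool.Agent.TH167.SH.chi_cast e u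
    have ey : (gd u e : ℤ) - Pool.Agent.TH167.SH.chi e u = (y : ℤ) := by
      rw [h4]
      omega
    have hy0 : y ≠ 0 := by
      intro h5
      rw [h5] at ey
      apply hne
      push_cast at ey
      linarith
    rw [ey]
    exact of_TB hTB hy0 hbA
  refine ⟨?_, key⟩
  have hsum9 : ∑ i ∈ Finset.univ.filter (fun i => nth 9 u < u i), u i ≤ 3 * e := by
    obtain ⟨m, σ, hm, hw, hz⟩ := Pool.Agent.K4H51.PTM.exists_anti u
    have hr3 := Pool.Agent.K4H51.PTM.red3_of hs hred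
    -- a set of at most nine points
    have hcard : (Finset.univ.filter fun i => nth 9 u < u i).card ≤ 9 :=
      Pool.Agent.K4H51.PTM.nth_spec 9 u
    have hthree : ∀ S : Finset (Fin s), S.card ≤ 3 → ∑ i ∈ S, u i ≤ e := by
      intro S hS
      obtain ⟨T, hST, -, hT⟩ := Finset.exists_subsuperset_card_eq (Finset.subset_univ S) hS
        (by rw [Finset.card_univ, Fintype.card_fin]; omega)
      obtain ⟨a, b, c, hab, hac, hbc, rfl⟩ := Finset.card_eq_three.1 hT
      refine (Finset.sum_le_sum_of_subset hST).trans ?_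
      rw [Finset.sum_insert (by simp [hab, hac]), Finset.sum_insert (by simp [hbc]),
        Finset.sum_singleton]
      have := hred a b c hab hac hbc
      omega
    have hall : ∀ (n : ℕ) (S : Finset (Fin s)), S.card ≤ 3 * n → ∑ j ∈ S, u j ≤ n * e := by
      intro n
      induction n with
      | zero =>
        intro S hS
        have : S = ∅ := Finset.card_eq_zero.1 (by omega)
        rw [this]
        simp
      | succ n ih =>
        intro S hS
        rcases Nat.lt_or_ge S.card 4 with h | h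
        · have := hthree S (by omega)
          nlinarith
        · obtain ⟨T, hT, hT3⟩ := Finset.exists_subset_card_eq (show 3 ≤ S.card by omega)
          have h1 := hthree T (by omega)
          have h2 := ih (S \ T) (by rw [Finset.card_sdiff_of_subset hT]; omega)
          have h3 := Finset.sum_sdiff hT (f := u)
          nlinarith
    exact hall 3 _ (by omega)
  exact key (Finset.univ.filter fun i => nth 9 u < u i) (nth 9 u) hsum9
    (fun j hj => by
      by_contra hcon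
      push Not at hcon
      exact hj (Finset.mem_filter.2 ⟨Finset.mem_univ _, hcon⟩))
    (Pool.Agent.K4H51.PTM.nth_anti (Nat.zero_le 9) u)

end Pool.Agent.H51.SB.Win
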