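import Pool.Graph.R_seed8.TH442.NF.HH
import Pool.Graph.R_seed8.TH167.SH.Segre
import Pool.Agent.H51.SB.Win

set_option autoImplicit false

/-!
# The decomposition of a nonempty linear system, with the size of the standard form
-/

namespace Pool.Agent.H51.SB.Red

open MvPolynomial Pool.Agent.W609 Pool.Agent.W609.CR Pool.Agent.TH167 Pool.Agent.TH167.SH
  Pool.Agent.H932R3 Pool.Agent.TH442.NF

theorem main_mono {K : Type} [Field K] [CharZero K] {r : ℕ} :
    ∀ (d : ℕ) (P : Fin (r + 4) → Fin 2 → K)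
      (_ : AlgebraicIndependent ℚ (fun ij : Fin (r + 4) × Fin 2 => P ij.1 ij.2))
      (w : Fin (r + 4) → ℕ)
      (_ : 0 < Module.finrank K ↥(VS (fun j => aff (P j)) w d)),
      ∃ (d' : ℕ) (w' : Fin (r + 4) → ℕ) (k : ℕ) (C : Fin k → MvPolynomial (Fin 3) K)
        (e : Fin k → ℕ) (u : Fin k → Fin (r + 4) → ℕ) (N : Fin k → ℕ),
        Dec P d w d' w' C e u N ∧
        Module.finrank K ↥(VS (fun j => aff (P j)) w' d') =
          Module.finrank K ↥(VS (fun j => aff (P j)) w d) ∧
        ∃ (P1 : Fin (r + 4) → Fin 2 → K) (d1 : ℕ) (w1 : Fin (r + 4) → ℕ),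
          AlgebraicIndependent ℚ (fun ij : Fin (r + 4) × Fin 2 => P1 ij.1 ij.2) ∧
          Relation.ReflTransGen Quad (d', w') (d1, w1) ∧ Reduced d1 w1 ∧
          Module.finrank K ↥(VS (fun j => aff (P1 j)) w1 d1) =
            Module.finrank K ↥(VS (fun j => aff (P j)) w' d') ∧ d1 ≤ d ∧ ∀ j, w1 j ≤ w j := by
  classical
  have n0 : ((0 : Fin (r + 4)) : ℕ) = 0 := rfl
  have n1 : ((1 : Fin (r + 4)) : ℕ) = 1 := Nat.mod_eq_of_lt (show 1 < r + 4 by omega)
  have n2 : ((2 : Fin (r + 4)) : ℕ) = 2 := Nat.mod_eq_of_lt (show 2 < r + 4 by omega)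
  intro d
  induction d using Nat.strong_induction_on with
  | _ d ih =>
    intro P hP w hpos
    obtain ⟨σ, hσ⟩ := exists_sort w
    have ne01 : σ 0 ≠ σ 1 := fun h => by
      have := congrArg Fin.val (σ.injective h)
      rw [n0, n1] at this
      omega
    have h21 : w (σ 1) ≤ w (σ 0) := hσ (by rw [Fin.le_def, n1, n0]; omega)
    have h32 : w (σ 2) ≤ w (σ 1) := hσ (by rw [Fin.le_def, n1, n2]; omega)
    have hwd : ∀ j, w j ≤ d := by
      intro j
      have hf := vs_fin (fun j => aff (P j)) w d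
      have h1 : Nontrivial ↥(VS (fun j => aff (P j)) w d) := Module.finrank_pos_iff.1 hpos
      obtain ⟨⟨f, hf⟩, hf0⟩ := exists_ne (0 : ↥(VS (fun j => aff (P j)) w d))
      rw [mem_VS] at hf
      exact van_le (fun h => hf0 (Subtype.ext h)) hf.1 (hf.2 j)
    rcases Nat.lt_or_ge d (w (σ 0) + w (σ 1)) with hline | hline
    · -- a line splits off
      obtain ⟨k, hk⟩ : ∃ k, k = w (σ 0) + w (σ 1) - d := ⟨_, rfl⟩
      have w0 := hwd (σ 0)
      have w1 := hwd (σ 1)
      have hdim := line_k hP ne01 k w d (by omega) (by omega) (by omega) (by omega)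
      have hsle : ∀ j, sb (σ 0) (σ 1) k w j ≤ w j := by
        intro j
        unfold sb
        split_ifs <;> omega
      obtain ⟨d', w', n, C, e, u, N, hD, hd1, P1, d1, w1, c1, c2, c3, c4, c5, c6⟩ :=
        ih (d - k) (by omega) P hP (sb (σ 0) (σ 1) k w) (by rw [← hdim]; exact hpos)
      exact ⟨d', w', n + 1, _, _, _, _,
        hD.line hP ne01 (by omega) (by omega) (by omega) (by omega) (by omega),
        hd1.trans hdim.symm, P1, d1, w1, c1, c2, c3, c4, by omega, fun j => (c6 j).trans (hsle j)⟩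
    · rcases Nat.lt_or_ge d (w (σ 0) + w (σ 1) + w (σ 2)) with hlt | hge
      · -- a quadratic transformation
        obtain ⟨i, hi⟩ : ∃ i : Fin 3 → Fin (r + 4), i = fun k => σ ⟨k.1, by omega⟩ := ⟨_, rfl⟩
        have hinj : Function.Injective i := by
          intro a b hab
          rw [hi] at hab
          have h1 := σ.injective hab
          exact Fin.ext (Fin.mk.inj h1)
        have i0 : i 0 = σ 0 := by
          rw [hi]
          rfl
        have i1 : i 1 = σ 1 := by
          rw [hi]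
          show σ _ = σ 1
          congr 1
        have i2 : i 2 = σ 2 := by
          rw [hi]
          show σ _ = σ 2
          congr 1
        have p : PS i d w := by
          constructor
          · rw [i0, i1]; omega
          · rw [i0, i2]; omega
          · rw [i1, i2]; omega
        obtain ⟨P', hP', hr⟩ := exists_crel hP hinj
        have hdim := hr.dim p
        have hcdv : cd i d w = 2 * d - (w (σ 0) + w (σ 1) + w (σ 2)) := by
          unfold cd
          rw [i0, i1, i2]
        obtain ⟨t, ht⟩ : ∃ t, t = w (σ 0) + w (σ 1) + w (σ 2) - d := ⟨_, rfl⟩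
        have hwle : ∀ j, wcr d i w j ≤ w j := by
          intro j
          unfold wcr
          rw [i0, i1, i2]
          split_ifs with c0 c1 c2
          · rw [c0]; omega
          · rw [c1]; omega
          · rw [c2]; omega
          · exact le_rfl
        obtain ⟨d', w', n, C, e, u, N, hD, hd1, P1, d1, w1, c1, c2, c3, c4, c5, c6⟩ :=
          ih (cd i d w) (by omega) P' hP' (wcr d i w) (by rw [hdim]; exact hpos)
        obtain ⟨pM, C', hD'⟩ := hD.pull hP hP' hr p
        have hdM := hr.symm.dim pM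
        refine ⟨_, _, n, C', _, _, N, hD', ?_, P1, d1, w1, c1, ?_, c3, ?_, by omega,
          fun j => (c6 j).trans (hwle j)⟩
        · rw [hdM, hd1, hdim]
        · refine Relation.ReflTransGen.head ⟨i, hinj, pM.cr hinj, ?_⟩ c2
          rw [cd_cr hinj pM, wcr_cr hinj pM]
        · rw [hdM, c4]
      · -- the reduced case
        have hred : Reduced d w := by
          intro i j k hij hik hjk
          have hw' : ∀ l, w l = (fun j => w (σ j)) (σ.symm l) := by
            intro l
            show w l = w (σ (σ.symm l))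
            rw [σ.apply_symm_apply]
          rw [hw' i, hw' j, hw' k]
          refine le_trans ?_ hge
          have hij' : σ.symm i ≠ σ.symm j := fun h => hij (σ.symm.injective h)
          have hik' : σ.symm i ≠ σ.symm k := fun h => hik (σ.symm.injective h)
          have hjk' : σ.symm j ≠ σ.symm k := fun h => hjk (σ.symm.injective h)
          exact three_sorted hσ hij' hik' hjk'
        refine ⟨d, w, 0, Fin.elim0, Fin.elim0, Fin.elim0, Fin.elim0, ?_, rfl, P, d, w, hP,
          Relation.ReflTransGen.refl, hred, rfl, le_rfl, fun j => le_rfl⟩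
        refine ⟨fun a => a.elim0, fun a => a.elim0, fun a => a.elim0, ?_, ?_, fun a => a.elim0,
          fun C e u h => red_nef hred h⟩
        · simp
        · intro j
          simp



/-- **The reduction of a nonempty system at general points**, with the size of the standard
form. -/
theorem hh_all {r : ℕ} (d : ℕ) (w : Fin (r + 4) → ℕ) :
    ∃ F : MvPolynomial (Fin (r + 4) × Fin 2) ℚ, F ≠ 0 ∧ ∀ (K : Type) [Field K] [CharZero K]
      (P : Fin (r + 4) → Fin 2 → K), evP P F ≠ 0 →
        0 < Module.finrank K ↥(VS (fun j => aff (P j)) w d) →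
        ∃ (d' : ℕ) (w' : Fin (r + 4) → ℕ) (k : ℕ)
          (C : Fin k → MvPolynomial (Fin 3) K) (e : Fin k → ℕ) (u : Fin k → Fin (r + 4) → ℕ)
          (N : Fin k → ℕ) (d1 : ℕ) (w1 : Fin (r + 4) → ℕ),
          Dcp P d w d' w' C e u N ∧ Relation.ReflTransGen Quad (d', w') (d1, w1) ∧
          Reduced d1 w1 ∧
          Module.finrank K ↥(VS (fun j => aff (P j)) w d) = Pool.Agent.K4H28.SP.gd w1 d1 ∧
          Module.finrank K ↥(VS (fun j => aff (P j)) w1 d1) = Pool.Agent.K4H28.SP.gd w1 d1 ∧
          Module.finrank K ↥(VS (fun j => aff (P j)) w' d') = Pool.Agent.K4H28.SP.gd w1 d1 ∧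
          chi d1 w1 = chi d' w' ∧ d1 ≤ d ∧ ∀ j, w1 j ≤ w j := by
  classical
  obtain ⟨g, Fg, hFg, hg⟩ := dim_gen w d
  obtain ⟨K0, i1, i2, P0, hP0⟩ := SH.exists_generic (r + 4)
  rcases Nat.eq_zero_or_pos g with hg0 | hg0
  · refine ⟨Fg, hFg, fun K _ _ P hP hs => ?_⟩
    exfalso
    rw [hg K P hP, hg0] at hs
    omega
  · have hg1 := hg K0 P0 (evP_ne hP0 hFg)
    obtain ⟨d', w', k, C0, e, u, N, hD, hdim, P1, d1, w1, hP1, hchain, hred, hdim1, hd1, hw1⟩ :=
      main_mono d P0 hP0 w (by rw [hg1]; exact hg0)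
    obtain ⟨g', Fg', hFg', hg'⟩ := dim_gen w' d'
    obtain ⟨Fg1, hFg1, hg1'⟩ := Pool.Agent.K4H28.SP.gd_spec w1 d1
    have hge : g' = g := by
      rw [← hg' K0 P0 (evP_ne hP0 hFg'), hdim, hg1]
    have hg1e : Pool.Agent.K4H28.SP.gd w1 d1 = g := by
      have h := hg1' K0 P1 (evP_ne hP1 hFg1)
      rw [← vs_eq_forms] at h
      rw [← h, hdim1, hdim, hg1]
    have hspr := fun a => exc_spread (e a) (u a) ⟨K0, i1, i2, P0, C0 a, hP0, hD.exc a⟩
    choose Fa hFa hFa' using hspr
    refine ⟨Fg * Fg' * Fg1 * ∏ a, Fa a, mul_ne_zero (mul_ne_zero (mul_ne_zero hFg hFg') hFg1)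
      (Finset.prod_ne_zero_iff.2 fun a _ => hFa a), fun K _ _ P hP hs => ?_⟩
    rw [map_mul, map_mul, map_mul, map_prod] at hP
    have q0 := hg K P (left_ne_zero_of_mul (left_ne_zero_of_mul (left_ne_zero_of_mul hP)))
    have q1 := hg' K P (right_ne_zero_of_mul (left_ne_zero_of_mul (left_ne_zero_of_mul hP)))
    have q2 := hg1' K P (right_ne_zero_of_mul (left_ne_zero_of_mul hP))
    rw [← vs_eq_forms] at q2
    have q3 := Finset.prod_ne_zero_iff.1 (right_ne_zero_of_mul hP)
    choose C hC using fun a => hFa' a K P (q3 a (Finset.mem_univ a))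
    have hDcp : Dcp P d w d' w' C e u N := ⟨hC, hD.pos, hD.orth, hD.deg, hD.mul, hD.zero⟩
    obtain ⟨c1, c2, c3⟩ := quad_inv hchain
    simp only at c1 c2 c3
    exact ⟨d', w', k, C, e, u, N, d1, w1, hDcp, hchain, hred, by rw [q0, hg1e], q2,
      by rw [q1, hge, hg1e], by omega, hd1, hw1⟩

end Pool.Agent.H51.SB.Red
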