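import Pool.Graph.R_pool_sql_team_seeded_c8625f6e.K4H28.SPB.Num2

set_option autoImplicit false

/-!
# One more point of small multiplicity: the numerical part

`i k` are the dimensions of the annihilators for a system, `L k` the dimensions of the systems with
multiplicity `k` at a further general point, and `i'`, `L'` those for the system with one more point
of large multiplicity `A`.
-/

namespace Pool.Agent.H51.SB

open Pool.Agent.K4H28.SP

variable {i i' L L' : ℕ → ℕ} {N : ℕ}

/-- The tail. -/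
theorem tail (hL : Dim i' L' N) (e : ℕ) : ∀ x : ℕ,
    (∀ l, x ≤ l → l + 1 ≤ i' l + (e - (l - x))) → 2 * L' x ≤ e * (e + 1) := by
  induction e with
  | zero =>
    intro x h
    have h1 : ∀ r, L' x ≤ L' (x + r) := by
      intro r
      induction r with
      | zero => exact le_rfl
      | succ r ih =>
        have h2 := h (x + r) (by omega)
        have h3 := hL.eq (x + r)
        have h4 : x + (r + 1) = x + r + 1 := rfl
        rw [h4]
        omega
    have h2 := h1 N
    rw [hL.zero (x + N) (by omega)] at h2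
    omega
  | succ e ih =>
    intro x h
    have h1 := ih (x + 1) (fun l hl => by
      have := h l (by omega)
      omega)
    have h2 := h x le_rfl
    have h3 := hL.eq x
    have h4 : L' x ≤ (e + 1) + L' (x + 1) := by omega
    nlinarith

theorem sum_trunc (c : ℕ) : ∀ a : ℕ, 2 * ∑ k ∈ Finset.range a, (k + 1 - c) =
    (a - c) * (a - c + 1) := by
  intro a
  induction a with
  | zero => simp
  | succ a ih =>
    rw [Finset.sum_range_succ, Nat.mul_add, ih]
    rcases Nat.lt_or_ge a c with h | h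
    · have h1 : a - c = 0 := by omega
      have h2 : a + 1 - c = 0 := by omega
      rw [h1, h2]
    · obtain ⟨x, rfl⟩ := Nat.exists_eq_add_of_le h
      have h1 : c + x - c = x := by omega
      have h2 : c + x + 1 - c = x + 1 := by omega
      rw [h1, h2]
      ring

/-- Growth from one index to another one. -/
theorem grow (h : Num2 i i') {k : ℕ} (h1 : 1 ≤ i k) (r : ℕ) : i k + r ≤ i (k + r) := by
  induction r with
  | zero => exact le_rfl
  | succ r ih =>
    have h2 := h.num.up (k + r) (by omega)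
    have h3 : k + (r + 1) = k + r + 1 := rfl
    rw [h3]
    omega

theorem anti_sub (hL : Dim i L N) (hL' : Dim i' L' N) (hm : ∀ k, i k ≤ i' k) (k : ℕ) :
    L' 0 + L k ≤ L 0 + L' k := by
  induction k with
  | zero => omega
  | succ k ih =>
    have h1 := hL.eq k
    have h2 := hL'.eq k
    have h3 := hm k
    omega

/-- **One more point of multiplicity `a`.** The conditions which are not independent, and the
dimension, are bounded in terms of the number `c` of the leading forms of degree `a - 1`. -/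
theorem step_num (h : Num2 i i') (hL : Dim i L N) (hL' : Dim i' L' N) {A a : ℕ} (ha : 1 ≤ a)
    (haA : a ≤ A) (hr : L A = L' 0) (h1 : 1 ≤ i (a - 1)) (h2 : i (a - 1) ≤ a - 1) :
    ∃ c, 1 ≤ c ∧ c + 1 ≤ a ∧
      2 * ∑ k ∈ Finset.range a, i k ≤ (a - c) * (a - c + 1) ∧
      2 * L 0 + 2 * c + 4 * L a ≤ 2 * (c * (A - a)) + c * (c - 1) + 4 * L 0 := by
  obtain ⟨e, rfl⟩ : ∃ e, a = e + 1 := ⟨a - 1, by omega⟩
  have e0 : e + 1 - 1 = e := rfl
  rw [e0] at h1 h2
  obtain ⟨c, hc⟩ : ∃ c, e + 1 = i e + c := ⟨e + 1 - i e, by omega⟩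
  refine ⟨c, by omega, by omega, ?_, ?_⟩
  · rw [← sum_trunc c (e + 1)]
    refine Nat.mul_le_mul_left 2 (Finset.sum_le_sum fun k hk => ?_)
    have hk' := Finset.mem_range.1 hk
    rcases Nat.eq_zero_or_pos (i k) with h3 | h3
    · omega
    · have h4 := grow h h3 (e - k)
      have h5 : k + (e - k) = e := by omega
      rw [h5] at h4
      omega
  · -- the tail of `L`
    have h3 : ∀ r, L (e + 1) ≤ r * c + L (e + 1 + r) := by
      intro r
      induction r with
      | zero => simp
      | succ r ih =>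
        have h4 := grow h h1 (r + 1)
        have h5 := hL.eq (e + 1 + r)
        have h6 : e + (r + 1) = e + 1 + r := by omega
        rw [h6] at h4
        have h7 : e + 1 + (r + 1) = e + 1 + r + 1 := rfl
        rw [h7]
        nlinarith
    have h4 := h3 (A - (e + 1))
    have h5 : e + 1 + (A - (e + 1)) = A := by omega
    rw [h5, hr] at h4
    -- the tail of `L'`
    have h6 : ∀ r, e + r + 1 ≤ i' (e + r) + (c - 1 - r) := by
      intro r
      induction r with
      | zero =>
        have h7 := h.num.drop e h1 h2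
        simp only [Nat.add_zero, Nat.sub_zero]
        omega
      | succ r ih =>
        have h7 := grow h h1 r
        rcases h.strict (e + r) (by omega) with h8 | h8
        · have h9 : e + (r + 1) = e + r + 1 := rfl
          rw [h9]
          omega
        · have h9 : e + (r + 1) = e + r + 1 := rfl
          rw [h9, h8]
          omega
    have h7 := tail hL' (c - 1) e (fun l hl => by
      have h8 := h6 (l - e)
      have h9 : e + (l - e) = l := by omega
      rw [h9] at h8
      exact h8)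
    have h8 := anti_sub hL hL' h.num.mono e
    have h9 := hL.eq e
    have h10 : c - 1 + 1 = c := by omega
    rw [h10] at h7
    have h11 : (c - 1) * c = c * (c - 1) := Nat.mul_comm _ _
    have h12 : (A - (e + 1)) * c = c * (A - (e + 1)) := Nat.mul_comm _ _
    omega

/-- The inequality behind the logarithmic bound. -/
theorem step_ineq {T S h A a c : ℕ} (hc : 1 ≤ c) (hca : c + 1 ≤ a) (haA : a ≤ A)
    (hT : 2 * T ≤ (a - c) * (a - c + 1)) (hS : 2 * S + 2 * T = a * (a + 1))
    (hh : 2 * h + 2 * c ≤ 2 * (c * (A - a)) + c * (c - 1) + 4 * S) :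
    2 * T * h ≤ (a - 1) * S * (2 * A + a - 1) := by
  obtain ⟨e, rfl⟩ : ∃ e, a = c + e + 1 := ⟨a - c - 1, by omega⟩
  obtain ⟨B, rfl⟩ : ∃ B, A = c + e + 1 + B := ⟨A - (c + e + 1), by omega⟩
  obtain ⟨g, rfl⟩ : ∃ g, c = g + 1 := ⟨c - 1, by omega⟩
  have e1 : g + 1 + e + 1 - (g + 1) = e + 1 := by omega
  have e2 : g + 1 + e + 1 + B - (g + 1 + e + 1) = B := by omega
  have e3 : g + 1 + e + 1 - 1 = g + 1 + e := by omega
  have e4 : 2 * (g + 1 + e + 1 + B) + (g + 1 + e + 1) - 1 = 3 * g + 3 * e + 5 + 2 * B := by omega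
  have e5 : g + 1 - 1 = g := rfl
  rw [e1] at hT
  rw [e2, e5] at hh
  rw [e3, e4]
  -- `2 S ≥ c (a + e + 2)`
  have hS2 : (g + 1) * (g + 2 * e + 4) ≤ 2 * S := by nlinarith
  have hT2 : 2 * T ≤ (e + 1) * (e + 2) := by nlinarith
  have k0 : (e + 1) * (e + 2) * (g + 1) ≤ (g + 1 + e) * (2 * S) := by
    have h1 : (e + 1) * ((g + 1) * (g + 2 * e + 4)) ≤ (g + 1 + e) * (2 * S) :=
      Nat.mul_le_mul (by omega) hS2
    have h2 : (e + 1) * (e + 2) * (g + 1) ≤ (e + 1) * ((g + 1) * (g + 2 * e + 4)) := by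
      have h3 : (g + 1) * (e + 2) ≤ (g + 1) * (g + 2 * e + 4) :=
        Nat.mul_le_mul_left _ (by omega)
      calc (e + 1) * (e + 2) * (g + 1) = (e + 1) * ((g + 1) * (e + 2)) := by ring
        _ ≤ _ := Nat.mul_le_mul_left _ h3
    exact h2.trans h1
  have k1 : 2 * (2 * T * h) ≤ 2 * T * (2 * ((g + 1) * B) + (g + 1) * g + 4 * S) := by
    have : 2 * h ≤ 2 * ((g + 1) * B) + (g + 1) * g + 4 * S := by omega
    calc 2 * (2 * T * h) = 2 * T * (2 * h) := by ring
      _ ≤ _ := Nat.mul_le_mul_left _ this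
  have k2 : 2 * T * (2 * ((g + 1) * B) + (g + 1) * g + 4 * S) ≤
      (e + 1) * (e + 2) * (2 * ((g + 1) * B) + (g + 1) * g + 4 * S) :=
    Nat.mul_le_mul_right _ hT2
  have k3 : (e + 1) * (e + 2) * (2 * ((g + 1) * B)) ≤ (g + 1 + e) * (2 * S) * (2 * B) := by
    calc (e + 1) * (e + 2) * (2 * ((g + 1) * B)) = ((e + 1) * (e + 2) * (g + 1)) * (2 * B) := by
          ring
      _ ≤ _ := Nat.mul_le_mul_right _ k0
  have k4 : (e + 1) * (e + 2) * ((g + 1) * g + 4 * S) ≤
      (g + 1 + e) * (2 * S) * (3 * g + 3 * e + 5) := by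
    have h1 : (e + 1) * (e + 2) ≤ (g + 1 + e) * (g + e + 2) := Nat.mul_le_mul (by omega) (by omega)
    have h2 : (e + 1) * (e + 2) * (4 * S) ≤ (g + 1 + e) * (g + e + 2) * (4 * S) :=
      Nat.mul_le_mul_right _ h1
    have h3 : (e + 1) * (e + 2) * ((g + 1) * g) ≤ (g + 1 + e) * (2 * S) * (g + e + 1) := by
      have h4 : (e + 1) * (e + 2) ≤ (g + 1 + e) * (g + 2 * e + 4) :=
        Nat.mul_le_mul (by omega) (by omega)
      calc (e + 1) * (e + 2) * ((g + 1) * g) = ((e + 1) * (e + 2) * (g + 1)) * g := by ring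
        _ ≤ ((g + 1 + e) * (2 * S)) * (g + e + 1) := Nat.mul_le_mul k0 (by omega)
    have h7 : (e + 1) * (e + 2) * ((g + 1) * g + 4 * S) =
        (e + 1) * (e + 2) * ((g + 1) * g) + (e + 1) * (e + 2) * (4 * S) := by ring
    rw [h7]
    refine (Nat.add_le_add h3 h2).trans ?_
    have h8 : (g + 1 + e) * (2 * S) * (g + e + 1) + (g + 1 + e) * (g + e + 2) * (4 * S) =
        (g + 1 + e) * (2 * S) * (3 * g + 3 * e + 5) := by ring
    exact h8.le
  have k5 : 2 * (2 * T * h) ≤ 2 * ((g + 1 + e) * S * (3 * g + 3 * e + 5 + 2 * B)) := by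
    refine (k1.trans k2).trans ?_
    have h1 : (e + 1) * (e + 2) * (2 * ((g + 1) * B) + (g + 1) * g + 4 * S) =
        (e + 1) * (e + 2) * (2 * ((g + 1) * B)) + (e + 1) * (e + 2) * ((g + 1) * g + 4 * S) := by
      ring
    rw [h1]
    refine (Nat.add_le_add k3 k4).trans ?_
    have h2 : (g + 1 + e) * (2 * S) * (2 * B) + (g + 1 + e) * (2 * S) * (3 * g + 3 * e + 5) =
        2 * ((g + 1 + e) * S * (3 * g + 3 * e + 5 + 2 * B)) := by ring
    exact h2.le
  exact Nat.le_of_mul_le_mul_left k5 (by norm_num)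

end Pool.Agent.H51.SB
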