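import Pool.Graph.R_pool_sql_team_seeded_c8625f6e.K4H28.SPB.Two
import Pool.Agent.H51.SB.Step
import Pool.Agent.H51.SB.Pot

set_option autoImplicit false
set_option linter.unusedSectionVars false

/-!
# The superabundance of a system with points of small multiplicity
-/

namespace Pool.Agent.H51.SB

open MvPolynomial Module Pool.Agent.H248R5 Pool.Agent.H248R6 Pool.Agent.K4H28.SP

/-- What is known about the dimension `x` and the superabundance `y`. -/
def TB (A b x y : ℕ) : Prop :=
  y = 0 ∨ (2 ≤ b ∧ x ≤ (A - 1) * (b - 1) ∧ 2 * y + (b - 1) * x ≤ (b - 1) * (A * (b - 1) + 1) ∧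
    (y : ℝ) + pot ((b - 1 : ℕ) : ℝ) ((2 * A + (b - 1) : ℕ) : ℝ) (x : ℝ) ≤
      ((b * (b - 1) : ℕ) : ℝ) / 2 +
        pot ((b - 1 : ℕ) : ℝ) ((2 * A + (b - 1) : ℕ) : ℝ) (((A - 1) * (b - 1) : ℕ) : ℝ))

variable {A b x x' y : ℕ}

theorem TB.down (h : TB A b x y) (hA : 1 ≤ A) (hx : x' ≤ x) : TB A b x' y := by
  rcases h with h | ⟨h0, h1, h2, h3⟩
  · exact Or.inl h
  · refine Or.inr ⟨h0, hx.trans h1, ?_, ?_⟩
    · have := Nat.mul_le_mul_left (b - 1) hx
      omega
    · have h4 := pot_mono (β := ((b - 1 : ℕ) : ℝ)) (X := ((2 * A + (b - 1) : ℕ) : ℝ))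
        (Nat.cast_nonneg _) (by
          have : 0 < 2 * A + (b - 1) := by omega
          exact_mod_cast this) (x := (x' : ℝ)) (y := (x : ℝ)) (Nat.cast_nonneg _)
          (by exact_mod_cast hx)
      linarith

theorem TB.first {a t : ℕ} (ha : 2 ≤ a) (hab : a ≤ b) (hbA : b ≤ A) (ht : 2 * t ≤ a * (a - 1))
    (hx : x ≤ (A - 1) * (a - 1)) : TB A b x t := by
  have h0 : x ≤ (A - 1) * (b - 1) := hx.trans (Nat.mul_le_mul_left _ (by omega))
  have h1 : a * (a - 1) ≤ b * (b - 1) := Nat.mul_le_mul hab (by omega)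
  refine Or.inr ⟨by omega, h0, ?_, ?_⟩
  · have h2 := Nat.mul_le_mul_left (b - 1) h0
    obtain ⟨c, rfl⟩ : ∃ c, b = c + 1 := ⟨b - 1, by omega⟩
    obtain ⟨B, rfl⟩ : ∃ B, A = B + 1 := ⟨A - 1, by omega⟩
    simp only [Nat.add_sub_cancel] at h0 h1 h2 ⊢
    nlinarith
  · have h2 := pot_mono (β := ((b - 1 : ℕ) : ℝ)) (X := ((2 * A + (b - 1) : ℕ) : ℝ))
        (Nat.cast_nonneg _) (by
          have : 0 < 2 * A + (b - 1) := by omega
          exact_mod_cast this) (x := (x : ℝ)) (y := (((A - 1) * (b - 1) : ℕ) : ℝ))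
          (Nat.cast_nonneg _) (by exact_mod_cast h0)
    have h3 : (t : ℝ) ≤ ((b * (b - 1) : ℕ) : ℝ) / 2 := by
      have h4 : 2 * t ≤ b * (b - 1) := ht.trans h1
      have h5 : (2 : ℝ) * t ≤ ((b * (b - 1) : ℕ) : ℝ) := by exact_mod_cast h4
      linarith
    linarith

theorem TB.step {a t S : ℕ} (h : TB A b x y) (hy : y ≠ 0) (hab : a ≤ b) (hbA : b ≤ A)
    (hx : x' + S = x) (h1 : 2 * t ≤ (a - 1) * S) (h2 : 2 * t * x ≤ (a - 1) * S * (2 * A + a - 1)) :
    TB A b x' (y + t) := by
  rcases h with h | ⟨k0, k1, k2, k3⟩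
  · exact absurd h hy
  have h3 : (a - 1) * S ≤ (b - 1) * S := Nat.mul_le_mul_right _ (by omega)
  refine Or.inr ⟨k0, by omega, ?_, ?_⟩
  · subst hx
    have : (b - 1) * (x' + S) = (b - 1) * x' + (b - 1) * S := Nat.mul_add _ _ _
    omega
  · have hX : 0 < 2 * A + (b - 1) := by omega
    have h4 := pot_step (β := ((b - 1 : ℕ) : ℝ)) (X := ((2 * A + (b - 1) : ℕ) : ℝ))
        (Nat.cast_nonneg _) (by exact_mod_cast hX) (h := (x : ℝ)) (D := (S : ℝ)) (T := (t : ℝ))
        (Nat.cast_nonneg _) (by
          have : S ≤ x := by omega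
          exact_mod_cast this) (by
          have := h1.trans h3
          exact_mod_cast this) (by
          have h5 : 2 * t * x ≤ (b - 1) * S * (2 * A + (b - 1)) :=
            h2.trans (Nat.mul_le_mul h3 (by omega))
          exact_mod_cast h5)
    have h5 : (x : ℝ) - (S : ℝ) = (x' : ℝ) := by
      rw [← hx]
      push_cast
      ring
    rw [h5] at h4
    push_cast at k3 h4 ⊢
    linarith

variable {K : Type} [Field K] [CharZero K] {n : ℕ}
variable {P : Fin n → Fin 2 → K} {d : ℕ} {q : Fin n} {m : Fin n → ℕ}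

/-- The second inequality for one more point. -/
theorem more (hP : AlgebraicIndependent ℚ (fun ij : Fin n × Fin 2 => P ij.1 ij.2))
    {S : Finset (Fin n)} {a : Fin n} (hq : q ∉ S) (ha : a ∉ S) (haq : a ≠ q) {A : ℕ}
    (hA : ∀ i ∈ S, m i ≤ A) (haA : m a ≤ A) (h1 : 1 ≤ m a)
    (hf : 1 ≤ finrank K (II P d q (res m S) (m a - 1)))
    (hnf : finrank K (II P d q (res m S) (m a - 1)) ≤ m a - 1) {T D : ℕ}
    (hT : T = ∑ j ∈ Finset.range (m a), finrank K (II P d q (res m S) j))
    (hD : finrank K (forms (res m (insert a S)) P d) + D = finrank K (forms (res m S) P d)) :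
    2 * T * finrank K (forms (res m S) P d) ≤ (m a - 1) * D * (2 * A + m a - 1) := by
  classical
  have e3 := sum_insert_eq (m := m) (d := d) hP hq ha haq
  have e4 := LL_insert (m := m) (d := d) hP hq ha haq
  have hN := num2_inst (d := d) (q := q) (w := res m S) (w' := Function.update (res m S) a A) hP
    haq (res_not ha) (above_update (M := A) (res_not ha) (res_le hA))
  obtain ⟨c, hc1, hc2, hc3, hc4⟩ := step_num hN
    (dim_inst (P := P) (d := d) (q := q) (w := res m S))
    (dim_inst (P := P) (d := d) (q := q) (w := Function.update (res m S) a A)) h1 haA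
    (LL_move hP haq (res_not ha) A) hf hnf
  rw [LL_res hq, e4] at hc4
  rw [← hT] at hc3 e3
  have h2 : 2 * D + 2 * T = m a * (m a + 1) := by
    have h3 : 2 * (m a + 1).choose 2 = m a * (m a + 1) := by
      rw [Nat.choose_two_right, Nat.add_sub_cancel, mul_comm (m a) (m a + 1)]
      refine Nat.mul_div_cancel' ?_
      rw [mul_comm]
      exact (Nat.even_mul_succ_self (m a)).two_dvd
    omega
  exact step_ineq hc1 hc2 haA hc3 h2 (by omega)

/-- **The bounds**, for generic points. -/
theorem trade_gen (hP : AlgebraicIndependent ℚ (fun ij : Fin n × Fin 2 => P ij.1 ij.2))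
    {T : Finset (Fin n)} (hqT : q ∉ T) {A b : ℕ} (hA : ∀ j ∈ T, m j ≤ A) (hb : ∀ j, j ∉ T → m j ≤ b)
    (hba : b ≤ A)
    (base : finrank K (forms (res m T) P d) + ∑ i ∈ T, (m i + 1).choose 2 = (d + 2).choose 2)
    (S : Finset (Fin n)) : Disjoint S T → q ∉ S →
    1 ≤ finrank K (forms (res m (S ∪ T)) P d) →
    ∃ y, finrank K (forms (res m (S ∪ T)) P d) + ∑ i ∈ S ∪ T, (m i + 1).choose 2 =
        (d + 2).choose 2 + y ∧ TB A b (finrank K (forms (res m (S ∪ T)) P d)) y := by
  classical
  induction S using Finset.induction_on with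
  | empty =>
    intro _ _ _
    refine ⟨0, ?_, Or.inl rfl⟩
    rw [Finset.empty_union]
    exact base
  | insert a S ha ih =>
    intro h1 h2 hne
    have hST : Disjoint S T := Finset.disjoint_of_subset_left (Finset.subset_insert a S) h1
    have hqS : q ∉ S := fun h => h2 (Finset.mem_insert_of_mem h)
    have haT : a ∉ T := Finset.disjoint_left.1 h1 (Finset.mem_insert_self _ _)
    have haq : a ≠ q := fun h => h2 (h ▸ Finset.mem_insert_self _ _)
    have haS : a ∉ S ∪ T := by
      rw [Finset.mem_union]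
      rintro (h | h)
      · exact ha h
      · exact haT h
    have hqS' : q ∉ S ∪ T := by
      rw [Finset.mem_union]
      rintro (h | h)
      · exact hqS h
      · exact hqT h
    rw [Finset.insert_union] at hne ⊢
    rw [Finset.sum_insert haS]
    have h3 := sum_insert_eq (m := m) (d := d) hP hqS' haS haq
    have h4 := LL_insert (m := m) (d := d) hP hqS' haS haq
    have h5 : finrank K (forms (res m (insert a (S ∪ T))) P d) ≤
        finrank K (forms (res m (S ∪ T)) P d) := forms_res_mono (Finset.subset_insert a _)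
    have hall : ∀ i ∈ S ∪ T, m i ≤ A := by
      intro i _
      by_cases hi : i ∈ T
      · exact hA i hi
      · exact (hb i hi).trans hba
    have hab : m a ≤ b := hb a haT
    obtain ⟨y, hy1, hy2⟩ := ih hST hqS (hne.trans h5)
    have hMle : 1 ≤ finrank K (LL P d q (res m (S ∪ T)) (m a)) := by
      rw [h4]
      exact hne
    have hnf : ∀ k, k < m a → finrank K (II P d q (res m (S ∪ T)) k) ≤ k :=
      fun k hk => notfull hP hMle hk
    set t := ∑ j ∈ Finset.range (m a), finrank K (II P d q (res m (S ∪ T)) j) with ht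
    set x := finrank K (forms (res m (S ∪ T)) P d) with hx
    set x' := finrank K (forms (res m (insert a (S ∪ T))) P d) with hx'
    refine ⟨y + t, by omega, ?_⟩
    by_cases h7 : t = 0
    · rw [h7, Nat.add_zero]
      rcases Nat.eq_zero_or_pos A with hA0 | hA0
      · -- no multiplicity is positive
        rcases hy2 with h | ⟨h, -⟩
        · exact Or.inl h
        · omega
      · exact hy2.down hA0 h5
    -- the multiplicity is at least two
    have h8 : 2 ≤ m a := by
      by_contra hcon
      apply h7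
      rw [ht]
      refine Finset.sum_eq_zero fun k hk => ?_
      have h9 := Finset.mem_range.1 hk
      have := hnf k h9
      omega
    have h9 : 1 ≤ finrank K (II P d q (res m (S ∪ T)) (m a - 1)) := by
      by_contra hcon
      apply h7
      rw [ht]
      refine Finset.sum_eq_zero fun j hj => ?_
      have hj' : j ≤ m a - 1 := by
        have := Finset.mem_range.1 hj
        omega
      by_contra hne
      have h10 : ∀ r, 1 ≤ finrank K (II P d q (res m (S ∪ T)) (j + r)) := by
        intro r
        induction r with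
        | zero => exact Nat.one_le_iff_ne_zero.2 hne
        | succ r ihr =>
          have := up_II hP _ ihr
          have h11 : j + (r + 1) = j + r + 1 := rfl
          rw [h11]
          omega
      have h11 := h10 (m a - 1 - j)
      have h12 : j + (m a - 1 - j) = m a - 1 := by omega
      rw [h12] at h11
      exact hcon h11
    have h10 : 2 * t ≤ m a * (m a - 1) := by
      have h11 : t ≤ ∑ k ∈ Finset.range (m a), k := by
        rw [ht]
        exact Finset.sum_le_sum fun k hk => hnf k (Finset.mem_range.1 hk)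
      have h12 := Finset.sum_range_id_mul_two (m a)
      omega
    by_cases hy0 : y = 0
    · subst hy0
      rw [Nat.zero_add]
      refine TB.first h8 hab hba h10 ?_
      obtain ⟨μ, hμ⟩ : ∃ μ, m a = μ + 1 := ⟨m a - 1, by omega⟩
      obtain ⟨r, hr⟩ : ∃ r, A = μ + 1 + r := ⟨A - (μ + 1), by omega⟩
      rw [hμ, Nat.add_sub_cancel] at h9
      have h11 := thmG (o := a) (r := r) hP haq (res_not haS) (res_le fun i hi => by
        rw [← hr]
        exact hall i hi) h9
      rw [← hμ, h4] at h11
      rw [hr, hμ]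
      have h12 : μ + 1 + r - 1 = μ + r := by omega
      rw [h12, Nat.add_sub_cancel]
      exact h11
    · obtain ⟨D, hD⟩ : ∃ D, x' + D = x := ⟨x - x', by omega⟩
      have h11 := more (m := m) (d := d) hP hqS' haS haq hall (hab.trans hba) (by omega) h9
        (hnf _ (by omega)) (T := t) (D := D) ht hD
      rw [← hx] at h11
      refine TB.step hy2 hy0 hab hba hD ?_ h11
      have h12 : 2 * (m a + 1).choose 2 = m a * (m a + 1) := by
        rw [Nat.choose_two_right, Nat.add_sub_cancel, mul_comm (m a) (m a + 1)]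
        refine Nat.mul_div_cancel' ?_
        rw [mul_comm]
        exact (Nat.even_mul_succ_self (m a)).two_dvd
      have h13 : m a * (m a + 1) = m a * (m a - 1) + 2 * m a := by
        obtain ⟨c, hc⟩ : ∃ c, m a = c + 1 := ⟨m a - 1, by omega⟩
        rw [hc, Nat.add_sub_cancel]
        ring
      have h14 : m a ≤ D := by omega
      have h15 : (m a - 1) * m a ≤ (m a - 1) * D := Nat.mul_le_mul_left _ h14
      rw [mul_comm (m a - 1) (m a)] at h15
      omega

end Pool.Agent.H51.SB
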